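import Pool.Agent.LPR.Stmts

/-!
Squad LPR, row SLT (helper36): existence of the slots.
-/

set_option autoImplicit false

open Set Topology

namespace Pool.Agent.LPR.H36

open Pool.Agent.LSG Pool.Agent.LPR

theorem sg_eq (m k : ℕ) : sg m k = (2 * (k : ℝ) + 1) * ((1 / 2 : ℝ) ^ m / 32) := by
  unfold sg
  rw [pow_add, one_div, inv_pow]
  field_simp
  norm_num

theorem sep_aux (m d k k' : ℕ) (hd : d ≤ 4) (h : d = 0 → k ≠ k') :
    (1 / 2 : ℝ) ^ (m + 12) + (1 / 2 : ℝ) ^ (m + d + 12) < |sg m k - sg (m + d) k'| := by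
  have hP : (0 : ℝ) < (1 / 2) ^ m := by positivity
  have hz : (1 : ℤ) ≤ |(2 * (k : ℤ) + 1) * 2 ^ d - (2 * (k' : ℤ) + 1)| := by
    apply Int.one_le_abs
    rcases Nat.eq_zero_or_pos d with h0 | h0
    · have h1 := h h0
      subst h0
      rw [pow_zero]
      omega
    · obtain ⟨e, rfl⟩ := Nat.exists_eq_succ_of_ne_zero h0.ne'
      rw [Nat.succ_eq_add_one, pow_succ]
      intro h2
      have h3 : (2 * (k : ℤ) + 1) * (2 ^ e * 2) = 2 * ((2 * (k : ℤ) + 1) * 2 ^ e) := by ring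
      rw [h3] at h2
      omega
  have hz' : (1 : ℝ) ≤ |(2 * (k : ℝ) + 1) * 2 ^ d - (2 * (k' : ℝ) + 1)| := by exact_mod_cast hz
  have h2d : (0 : ℝ) < 2 ^ d := by positivity
  have e0 : ((1 : ℝ) / 2) ^ d = 1 / 2 ^ d := by rw [div_pow, one_pow]
  have e1 : sg m k - sg (m + d) k' =
      ((2 * (k : ℝ) + 1) * 2 ^ d - (2 * (k' : ℝ) + 1)) * ((1 / 2) ^ m / (32 * 2 ^ d)) := by
    rw [sg_eq, sg_eq, pow_add, e0]
    field_simp
  have e2 : (1 / 2 : ℝ) ^ (m + 12) + (1 / 2 : ℝ) ^ (m + d + 12) =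
      (2 ^ d + 1) / 128 * ((1 / 2) ^ m / (32 * 2 ^ d)) := by
    rw [pow_add, pow_add, pow_add, e0]
    generalize (1 / 2 : ℝ) ^ m = P
    field_simp
    ring
  have hd2 : (2 : ℝ) ^ d ≤ 16 := by
    calc (2 : ℝ) ^ d ≤ 2 ^ 4 := pow_le_pow_right₀ (by norm_num) hd
      _ = 16 := by norm_num
  have hq : (0 : ℝ) < (1 / 2) ^ m / (32 * 2 ^ d) := by positivity
  rw [e1, abs_mul, abs_of_pos hq, e2]
  apply mul_lt_mul_of_pos_right _ hq
  linarith

theorem sep_all (m k m' k' : ℕ) (hne : (m, k) ≠ (m', k')) (h1 : m ≤ m' + 4) (h2 : m' ≤ m + 4) :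
    (1 / 2 : ℝ) ^ (m + 12) + (1 / 2 : ℝ) ^ (m' + 12) < |sg m k - sg m' k'| := by
  rcases le_total m m' with h | h
  · obtain ⟨d, rfl⟩ := Nat.exists_eq_add_of_le h
    apply sep_aux m d k k' (by omega)
    intro h0 hk
    apply hne
    rw [h0, hk, add_zero]
  · obtain ⟨d, rfl⟩ := Nat.exists_eq_add_of_le h
    rw [add_comm, abs_sub_comm]
    apply sep_aux m' d k' k (by omega)
    intro h0 hk
    apply hne
    rw [h0, hk, add_zero]

/-- the length unit of the slot `n` -/
noncomputable def dl (n : ℕ) : ℝ := (1 / ((n : ℝ) + 1) - 1 / ((n : ℝ) + 2)) / 5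

/-- the cut points of the slot `n` -/
noncomputable def uu (n : ℕ) (i : ℝ) : ℝ := 1 / ((n : ℝ) + 2) + i * dl n

theorem dl_pos (n : ℕ) : 0 < dl n := by
  unfold dl
  have h1 : (0 : ℝ) < (n : ℝ) + 1 := by positivity
  have h2 : 1 / ((n : ℝ) + 2) < 1 / ((n : ℝ) + 1) :=
    one_div_lt_one_div_of_lt h1 (by linarith)
  linarith

theorem uu_lo (n : ℕ) (i : ℝ) (hi : 0 < i) : 1 / ((n : ℝ) + 2) < uu n i := by
  unfold uu
  have := mul_pos hi (dl_pos n)
  linarith

theorem uu_hi (n : ℕ) (i : ℝ) (hi : i < 5) : uu n i < 1 / ((n : ℝ) + 1) := by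
  have h1 : uu n 5 = 1 / ((n : ℝ) + 1) := by
    unfold uu dl
    ring
  rw [← h1]
  unfold uu
  have := mul_lt_mul_of_pos_right hi (dl_pos n)
  linarith

theorem uu_sub (n : ℕ) (i j : ℝ) : uu n i - uu n j = (i - j) * dl n := by
  unfold uu
  ring

/-- the scale -/
noncomputable def ep (m : ℕ) : ℝ := (1 / 2 : ℝ) ^ (m + 12)

theorem ep_pos (m : ℕ) : 0 < ep m := by
  unfold ep
  positivity

/-- the trapezoid -/
noncomputable def tz (m k n : ℕ) : C(ℝ, ℝ) where
  toFun t := max 0 (min 1 (min ((t - (sg m k + ep m * uu n 1)) / (ep m * dl n))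
    (((sg m k + ep m * uu n 4) - t) / (ep m * dl n))))
  continuous_toFun := by fun_prop

theorem tz_apply (m k n : ℕ) (t : ℝ) : tz m k n t =
    max 0 (min 1 (min ((t - (sg m k + ep m * uu n 1)) / (ep m * dl n))
    (((sg m k + ep m * uu n 4) - t) / (ep m * dl n)))) := rfl

theorem tz_supp (m k n : ℕ) (t : ℝ) (h : tz m k n t ≠ 0) :
    sg m k + ep m * uu n 1 < t ∧ t < sg m k + ep m * uu n 4 := by
  have hq : 0 < ep m * dl n := mul_pos (ep_pos m) (dl_pos n)
  rw [tz_apply] at h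
  have h1 : 0 < min 1 (min ((t - (sg m k + ep m * uu n 1)) / (ep m * dl n))
    (((sg m k + ep m * uu n 4) - t) / (ep m * dl n))) := by
    by_contra h2
    exact h (max_eq_left (not_lt.1 h2))
  have h2 := (lt_min_iff.1 (lt_min_iff.1 h1).2)
  have h3 := (div_pos_iff_of_pos_right hq).1 h2.1
  have h4 := (div_pos_iff_of_pos_right hq).1 h2.2
  constructor <;> linarith

theorem slt : SltStmt := by
  refine ⟨fun m k n => sg m k + ep m * uu n 2, fun m k n => sg m k + ep m * uu n 3,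
    fun m k n => tz m k n, ?_, ?_, ?_, ?_, ?_, ?_, ?_⟩
  · intro m k n
    have hp : (0 : ℝ) < 1 / ((n : ℝ) + 2) := by positivity
    have h0 : 0 < uu n 2 := hp.trans (uu_lo n 2 (by norm_num))
    have h1 := mul_pos (ep_pos m) h0
    have h2 := uu_sub n 3 2
    have h3 := mul_pos (ep_pos m) (dl_pos n)
    have h4 : ep m * uu n 3 - ep m * uu n 2 = ep m * dl n := by
      rw [← mul_sub, h2]
      ring
    constructor
    · show sg m k < sg m k + ep m * uu n 2
      linarith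
    · show sg m k + ep m * uu n 2 < sg m k + ep m * uu n 3
      linarith
  · intro m k n
    show sg m k + ep m * uu n 3 < sg m k + (1 / 2 : ℝ) ^ (m + 12) / ((n : ℝ) + 1)
    have h1 := mul_lt_mul_of_pos_left (uu_hi n 3 (by norm_num)) (ep_pos m)
    rw [mul_one_div] at h1
    unfold ep at h1 ⊢
    linarith
  · intro m k n t
    show 0 ≤ tz m k n t ∧ tz m k n t ≤ 1
    rw [tz_apply]
    exact ⟨le_max_left _ _, max_le zero_le_one (min_le_left _ _)⟩
  · intro m k n t ha hb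
    show tz m k n t = 1
    have ha' : sg m k + ep m * uu n 2 ≤ t := ha
    have hb' : t ≤ sg m k + ep m * uu n 3 := hb
    have hq : 0 < ep m * dl n := mul_pos (ep_pos m) (dl_pos n)
    have h4 : ep m * uu n 2 - ep m * uu n 1 = ep m * dl n := by
      rw [← mul_sub, uu_sub]
      ring
    have h5 : ep m * uu n 4 - ep m * uu n 3 = ep m * dl n := by
      rw [← mul_sub, uu_sub]
      ring
    have h6 : 1 ≤ (t - (sg m k + ep m * uu n 1)) / (ep m * dl n) := by
      rw [one_le_div hq]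
      linarith
    have h7 : 1 ≤ ((sg m k + ep m * uu n 4) - t) / (ep m * dl n) := by
      rw [one_le_div hq]
      linarith
    rw [tz_apply, min_eq_left (le_min h6 h7), max_eq_right zero_le_one]
  · intro m k n t h
    obtain ⟨h1, h2⟩ := tz_supp m k n t h
    have hp : (0 : ℝ) < 1 / ((n : ℝ) + 2) := by positivity
    have h0 : 0 < uu n 1 := hp.trans (uu_lo n 1 (by norm_num))
    have h3 := mul_pos (ep_pos m) h0
    have h4 := mul_lt_mul_of_pos_left (uu_hi n 4 (by norm_num)) (ep_pos m)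
    rw [mul_one_div] at h4
    constructor
    · linarith
    · show t < sg m k + (1 / 2 : ℝ) ^ (m + 12) / ((n : ℝ) + 1)
      unfold ep at h2 h4
      linarith
  · intro m k n n' t h h'
    have key : ∀ i j : ℕ, i < j → tz m k i t ≠ 0 → tz m k j t ≠ 0 → False := by
      intro i j hij hi hj
      have h1 := (tz_supp m k i t hi).1
      have h2 := (tz_supp m k j t hj).2
      have h3 := mul_lt_mul_of_pos_left (uu_lo i 1 (by norm_num)) (ep_pos m)
      have h4 := mul_lt_mul_of_pos_left (uu_hi j 4 (by norm_num)) (ep_pos m)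
      have h5 : (1 : ℝ) / ((j : ℝ) + 1) ≤ 1 / ((i : ℝ) + 2) := by
        apply one_div_le_one_div_of_le (by positivity)
        have h6 : ((i + 1 : ℕ) : ℝ) ≤ (j : ℝ) := Nat.cast_le.2 hij
        push_cast at h6
        linarith
      have h6 := mul_le_mul_of_nonneg_left h5 (ep_pos m).le
      linarith
    rcases lt_trichotomy n n' with h1 | h1 | h1
    · exact (key n n' h1 h h').elim
    · exact h1
    · exact (key n' n h1 h' h).elim
  · intro m k m' k' hne h1 h2
    exact sep_all m k m' k' hne h1 h2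

end Pool.Agent.LPR.H36
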